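import Mathlib

/-!
# The core of the nonvanishing theorem for mod `p` modular symbols of weight three

A modular symbol of weight three with coefficients in a field of characteristic `p`, which is an
eigenvector of `U_p` with a nonzero eigenvalue and vanishes between any two elements of `ℤ[1/p]`,
vanishes between any two rational numbers whose denominators are prime to the level: there is no
Haar measure on `ℚ_p` with values in characteristic `p`.
-/

namespace Pool.Agent.Lib_helper47.Mu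

/-- Membership in `ℤ[1/p]`. -/
def InA (p : ℕ) (x : ℚ) : Prop := ∃ n : ℕ, ∃ a : ℤ, x * (p : ℚ) ^ n = a

/-- The rational number `x` has a denominator which is prime to `N`. -/
def C0 (N : ℕ) (x : ℚ) : Prop := ∃ m : ℤ, IsCoprime m (N : ℤ) ∧ ∃ z : ℤ, x * m = z

section InA

variable {p : ℕ}

theorem InA.int (z : ℤ) : InA p (z : ℚ) := ⟨0, z, by simp⟩

theorem InA.add {x y : ℚ} (hx : InA p x) (hy : InA p y) : InA p (x + y) := by
  obtain ⟨n, a, h⟩ := hx
  obtain ⟨m, b, h'⟩ := hy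
  refine ⟨n + m, a * p ^ m + b * p ^ n, ?_⟩
  push_cast
  rw [← h, ← h', pow_add]
  ring

theorem InA.mul {x y : ℚ} (hx : InA p x) (hy : InA p y) : InA p (x * y) := by
  obtain ⟨n, a, h⟩ := hx
  obtain ⟨m, b, h'⟩ := hy
  refine ⟨n + m, a * b, ?_⟩
  push_cast
  rw [← h, ← h', pow_add]
  ring

theorem InA.neg {x : ℚ} (hx : InA p x) : InA p (-x) := by
  obtain ⟨n, a, h⟩ := hx
  refine ⟨n, -a, ?_⟩
  push_cast
  rw [← h]
  ring

theorem InA.sub {x y : ℚ} (hx : InA p x) (hy : InA p y) : InA p (x - y) := by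
  rw [sub_eq_add_neg]
  exact hx.add hy.neg

theorem InA.zpow (hp : p ≠ 0) (k : ℤ) : InA p ((p : ℚ) ^ k) := by
  have hp' : (p : ℚ) ≠ 0 := by exact_mod_cast hp
  rcases k with k | k
  · refine ⟨0, (p : ℤ) ^ k, ?_⟩
    simp
  · refine ⟨k + 1, 1, ?_⟩
    rw [zpow_negSucc, inv_mul_cancel₀ (pow_ne_zero _ hp')]
    simp

theorem InA.natCast (n : ℕ) : InA p (n : ℚ) := by
  have := InA.int (p := p) (n : ℤ)
  simpa using this

theorem InA.c0 {N : ℕ} (hpN : Nat.Coprime p N) {x : ℚ} (hx : InA p x) : C0 N x := by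
  obtain ⟨n, a, h⟩ := hx
  refine ⟨(p : ℤ) ^ n, ?_, a, ?_⟩
  · exact IsCoprime.pow_left (Nat.isCoprime_iff_coprime.mpr hpN)
  · push_cast
    exact h

end InA

section C0

variable {N : ℕ}

theorem C0.add {x y : ℚ} (hx : C0 N x) (hy : C0 N y) : C0 N (x + y) := by
  obtain ⟨m, h1, a, h⟩ := hx
  obtain ⟨m', h1', b, h'⟩ := hy
  refine ⟨m * m', h1.mul_left h1', a * m' + b * m, ?_⟩
  push_cast
  rw [← h, ← h']
  ring

theorem C0.mul {x y : ℚ} (hx : C0 N x) (hy : C0 N y) : C0 N (x * y) := by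
  obtain ⟨m, h1, a, h⟩ := hx
  obtain ⟨m', h1', b, h'⟩ := hy
  refine ⟨m * m', h1.mul_left h1', a * b, ?_⟩
  push_cast
  rw [← h, ← h']
  ring

theorem C0.den {x : ℚ} (hx : C0 N x) : IsCoprime (x.den : ℤ) (N : ℤ) := by
  obtain ⟨m, h1, z, h⟩ := hx
  have hd : (x.den : ℤ) ∣ m := by
    have h2 : x.num * m = z * x.den := by
      have h3 : (x.num : ℚ) = x * x.den := by
        exact (Rat.mul_den_eq_num x).symm
      have : ((x.num * m : ℤ) : ℚ) = ((z * x.den : ℤ) : ℚ) := by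
        push_cast
        rw [h3, ← h]
        ring
      exact_mod_cast this
    have h4 : IsCoprime (x.den : ℤ) x.num := by
      have := x.reduced
      rw [Int.isCoprime_iff_nat_coprime] 
      simpa using this.symm
    exact h4.dvd_of_dvd_mul_left ⟨z, by rw [h2]; ring⟩
  exact IsCoprime.of_isCoprime_of_dvd_left h1 hd

theorem C0.of_den {x : ℚ} (h : IsCoprime (x.den : ℤ) (N : ℤ)) : C0 N x :=
  ⟨x.den, h, x.num, by push_cast; exact Rat.mul_den_eq_num x⟩

end C0

/-- The hypotheses of the core theorem. -/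
structure Core (p N : ℕ) {F : Type*} [Field F] (ε : ℤ → F) (α : F) (f1 f2 : ℚ → ℚ → F) :
    Prop where
  add1 : ∀ x y z, f1 x y + f1 y z = f1 x z
  add2 : ∀ x y z, f2 x y + f2 y z = f2 x z
  eq1 : ∀ a b c d : ℤ, a * d - b * c = 1 → (N : ℤ) ∣ c → ∀ r s : ℚ, C0 N r → C0 N s →
    c * r + d ≠ 0 → c * s + d ≠ 0 →
    f1 ((a * r + b) / (c * r + d)) ((a * s + b) / (c * s + d)) = ε d * (a * f1 r s + b * f2 r s)
  eq2 : ∀ a b c d : ℤ, a * d - b * c = 1 → (N : ℤ) ∣ c → ∀ r s : ℚ, C0 N r → C0 N s →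
    c * r + d ≠ 0 → c * s + d ≠ 0 →
    f2 ((a * r + b) / (c * r + d)) ((a * s + b) / (c * s + d)) = ε d * (c * f1 r s + d * f2 r s)
  hecke : ∀ x y, C0 N x → C0 N y →
    α * f2 x y = ∑ b ∈ Finset.range p, f2 ((x + b) / p) ((y + b) / p)
  zero1 : ∀ r s, InA p r → InA p s → f1 r s = 0
  zero2 : ∀ r s, InA p r → InA p s → f2 r s = 0

section Main

variable {p N : ℕ} {F : Type*} [Field F] {ε : ℤ → F} {α : F} {f1 f2 : ℚ → ℚ → F}

/-- Two points on a common sheet. -/
theorem Core.sheet (H : Core p N ε α f1 f2) (hp : p.Prime) (hpN : Nat.Coprime p N)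
    {a b c d : ℤ} (hdet : a * d - b * c = 1) (hN : (N : ℤ) ∣ c) (hc : c ≠ 0) (hd : d ≠ 0)
    {y : ℚ} (hy : InA p y) (k : ℤ) {X X' : ℚ} (hX : InA p (X * d)) (hX' : InA p (X' * d))
    {j j' : ℤ} (hj : (p : ℚ) ^ k * (a / c + y) - X = (p : ℚ) ^ j / (c * d))
    (hj' : (p : ℚ) ^ k * (a / c + y) - X' = (p : ℚ) ^ j' / (c * d)) :
    f1 X X' = 0 ∧ f2 X X' = 0 := by
  have hp0 : (p : ℚ) ≠ 0 := by exact_mod_cast hp.ne_zero
  have hcq : (c : ℚ) ≠ 0 := by exact_mod_cast hc
  have hdq : (d : ℚ) ≠ 0 := by exact_mod_cast hd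
  set W : ℚ := (p : ℚ) ^ k * (a / c + y) with hW
  have hVpos : (0 : ℤ) < W.den := by exact_mod_cast W.den_pos
  have hV0 : (W.den : ℚ) ≠ 0 := by exact_mod_cast W.den_ne_zero
  have hWU : W * W.den = W.num := Rat.mul_den_eq_num W
  obtain ⟨d', b', hb⟩ : ∃ d' b' : ℤ, W.num * d' - b' * W.den = 1 := by
    have h1 : IsCoprime W.num (W.den : ℤ) := by
      rw [Int.isCoprime_iff_nat_coprime]
      simpa using W.reduced
    obtain ⟨s, t, h⟩ := h1
    exact ⟨s, -t, by linarith⟩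
  have hbq : (W.num : ℚ) * d' - b' * W.den = 1 := by exact_mod_cast hb
  -- `N` divides the denominator of `W`
  have hNV : (N : ℤ) ∣ (W.den : ℤ) := by
    have hA : InA p ((a : ℚ) * W.den / c) := by
      have : (a : ℚ) * W.den / c = (p : ℚ) ^ (-k) * W.num - y * W.den := by
        have h1 : (p : ℚ) ^ (-k) * W = a / c + y := by
          rw [hW, ← mul_assoc, ← zpow_add₀ hp0]; simp
        have h2 : (p : ℚ) ^ (-k) * W.num = (a / c + y) * W.den := by
          rw [← hWU, ← mul_assoc, h1]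
        rw [h2]
        field_simp
        ring
      rw [this]
      exact ((InA.zpow hp.ne_zero _).mul (InA.int _)).sub (hy.mul (InA.natCast _))
    obtain ⟨n, z, hz⟩ := hA
    have h3 : a * W.den * p ^ n = z * c := by
      have : ((a * W.den * p ^ n : ℤ) : ℚ) = ((z * c : ℤ) : ℚ) := by
        push_cast
        rw [← hz]
        field_simp
      exact_mod_cast this
    have h4 : (N : ℤ) ∣ a * W.den * p ^ n := by
      rw [h3]; exact hN.mul_left z
    have h5 : IsCoprime (N : ℤ) (p : ℤ) := (Nat.isCoprime_iff_coprime.mpr hpN).symm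
    have h6 : IsCoprime (N : ℤ) a := by
      obtain ⟨t, ht⟩ := hN
      refine ⟨-b * t, d, ?_⟩
      rw [ht] at hdet
      linarith
    have h7 : (N : ℤ) ∣ a * W.den := (h5.pow_right).dvd_of_dvd_mul_right h4
    exact h6.dvd_of_dvd_mul_left h7
  -- `c / W.den` is in `A`
  have hcV : InA p ((c : ℚ) / W.den) := by
    have hWc : W * c = W.num * c / W.den := by
      rw [eq_div_iff hV0, ← hWU]; ring
    have h1 : (c : ℚ) / W.den = d' * (W * c) - b' * c := by
      rw [hWc]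
      field_simp
      linear_combination -hbq
    have h2 : W * c = (p : ℚ) ^ k * (a + y * c) := by
      rw [hW]; field_simp
    rw [h1, h2]
    exact ((InA.int _).mul ((InA.zpow hp.ne_zero _).mul ((InA.int _).add
      (hy.mul (InA.int _))))).sub ((InA.int _).mul (InA.int _))
  -- the preimages
  have key : ∀ {X : ℚ} {j : ℤ}, InA p (X * d) → W - X = (p : ℚ) ^ j / (c * d) →
      ∃ r : ℚ, InA p r ∧ (W.den : ℚ) * r + d' ≠ 0 ∧
        ((W.num : ℚ) * r + b') / ((W.den : ℚ) * r + d') = X := by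
    intro X j hX hj
    have hne : (W.num : ℚ) - W.den * X ≠ 0 := by
      rw [← hWU]
      have : W * W.den - W.den * X = W.den * (W - X) := by ring
      rw [this, hj]
      exact mul_ne_zero hV0 (div_ne_zero (zpow_ne_zero _ hp0) (mul_ne_zero hcq hdq))
    have hval : (W.num : ℚ) - W.den * X = W.den * ((p : ℚ) ^ j / (c * d)) := by
      rw [← hWU, ← hj]; ring
    obtain ⟨E, hE⟩ : ∃ E : ℚ, E = (W.num : ℚ) - W.den * X := ⟨_, rfl⟩
    rw [← hE] at hne hval
    have h1 : (W.den : ℚ) * ((d' * X - b') / E) + d' = 1 / E := by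
      have : (W.den : ℚ) * ((d' * X - b') / E) + d' = (W.den * (d' * X - b') + d' * E) / E := by
        field_simp
      rw [this]
      congr 1
      rw [hE]
      linear_combination hbq
    have h2 : (W.num : ℚ) * ((d' * X - b') / E) + b' = X / E := by
      have : (W.num : ℚ) * ((d' * X - b') / E) + b' = (W.num * (d' * X - b') + b' * E) / E := by
        field_simp
      rw [this]
      congr 1
      rw [hE]
      linear_combination X * hbq
    refine ⟨(d' * X - b') / E, ?_, ?_, ?_⟩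
    · have : (d' * X - b') / E =
          (p : ℚ) ^ (-j) * (d' * (X * d) - b' * d) * (c / W.den) := by
        rw [hval, zpow_neg]
        have := zpow_ne_zero j hp0
        field_simp
      rw [this]
      exact ((InA.zpow hp.ne_zero _).mul (((InA.int _).mul hX).sub
        ((InA.int _).mul (InA.int _)))).mul hcV
    · rw [h1]
      exact one_div_ne_zero hne
    · rw [h1, h2]
      field_simp
  obtain ⟨r, hr, hr1, hr2⟩ := key hX hj
  obtain ⟨r', hr', hr1', hr2'⟩ := key hX' hj'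
  have e1 := H.eq1 W.num b' W.den d' hb hNV r r' (hr.c0 hpN) (hr'.c0 hpN)
    (by push_cast; exact hr1) (by push_cast; exact hr1')
  have e2 := H.eq2 W.num b' W.den d' hb hNV r r' (hr.c0 hpN) (hr'.c0 hpN)
    (by push_cast; exact hr1) (by push_cast; exact hr1')
  push_cast at e1 e2
  rw [hr2, hr2', H.zero1 r r' hr hr', H.zero2 r r' hr hr'] at e1 e2
  simp only [mul_zero, add_zero] at e1 e2
  exact ⟨e1, e2⟩

/-- For a point `x` there is a nonzero translation `M ∈ ℤ[1/p]` under which `x` and all its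
`ℤ[1/p]`-translates and multiples by powers of `p` do not move along the sheets. -/
theorem Core.exists_shift (H : Core p N ε α f1 f2) (hp : p.Prime) (hpN : Nat.Coprime p N)
    (hN0 : N ≠ 0) {x : ℚ} (hx : C0 N x) :
    ∃ (v : ℕ) (e : ℤ), ¬ (p : ℤ) ∣ e ∧ ∀ (k : ℤ) (y : ℚ), InA p y →
      f1 ((p : ℚ) ^ k * (x + y)) ((p : ℚ) ^ k * (x + y + e / (p : ℚ) ^ v)) = 0 ∧
      f2 ((p : ℚ) ^ k * (x + y)) ((p : ℚ) ^ k * (x + y + e / (p : ℚ) ^ v)) = 0 := by
  have hp0 : (p : ℚ) ≠ 0 := by exact_mod_cast hp.ne_zero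
  have hpp : Prime (p : ℤ) := Nat.prime_iff_prime_int.mp hp
  obtain ⟨d, hd⟩ : ∃ d : ℤ, d = x.den := ⟨_, rfl⟩
  obtain ⟨b, hb⟩ : ∃ b : ℤ, b = x.num := ⟨_, rfl⟩
  have hd0 : d ≠ 0 := by rw [hd]; exact_mod_cast x.den_ne_zero
  have hdq : (d : ℚ) ≠ 0 := by exact_mod_cast hd0
  have hbd : IsCoprime d b := by
    rw [hd, hb, Int.isCoprime_iff_nat_coprime]
    simpa using x.reduced.symm
  have hxd : x * d = b := by rw [hd, hb]; push_cast; exact Rat.mul_den_eq_num x
  have hdN : IsCoprime d (N : ℤ) := by rw [hd]; exact hx.den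
  obtain ⟨a0, c0, h0⟩ : IsCoprime d (b * N) := hbd.mul_right hdN
  obtain ⟨t, ht⟩ : ∃ t : ℤ, -c0 + d * t ≠ 0 := by
    by_cases h : c0 = 0
    · exact ⟨1, by rw [h]; simpa using hd0⟩
    · exact ⟨0, by simpa using h⟩
  obtain ⟨c, hc⟩ : ∃ c : ℤ, c = N * (-c0 + d * t) := ⟨_, rfl⟩
  obtain ⟨a, ha⟩ : ∃ a : ℤ, a = a0 + b * N * t := ⟨_, rfl⟩
  have hdet : a * d - b * c = 1 := by rw [ha, hc]; linarith
  have hdetq : (a : ℚ) * d - b * c = 1 := by exact_mod_cast hdet
  have hNc : (N : ℤ) ∣ c := ⟨_, hc⟩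
  have hc0 : c ≠ 0 := by
    rw [hc]; exact mul_ne_zero (by exact_mod_cast hN0) ht
  have hcq : (c : ℚ) ≠ 0 := by exact_mod_cast hc0
  -- the prime-to-`p` part
  obtain ⟨v, E, hE, hcd⟩ : ∃ (v : ℕ) (E : ℤ), ¬ (p : ℤ) ∣ E ∧ c * d = (p : ℤ) ^ v * E := by
    have hfin : FiniteMultiplicity (p : ℤ) (c * d) :=
      Int.finiteMultiplicity_iff.mpr ⟨by simpa using hp.ne_one, mul_ne_zero hc0 hd0⟩
    obtain ⟨E, h1, h2⟩ := hfin.exists_eq_pow_mul_and_not_dvd
    exact ⟨_, E, h2, h1⟩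
  have hE0 : E ≠ 0 := by rintro rfl; simp at hE
  have hEq : (E : ℚ) ≠ 0 := by exact_mod_cast hE0
  obtain ⟨J, hJ, e, he⟩ : ∃ J : ℕ, 0 < J ∧ ∃ e : ℤ, 1 - (p : ℤ) ^ J = e * E := by
    have hcop : Nat.Coprime p E.natAbs := by
      rw [hp.coprime_iff_not_dvd]
      intro h
      exact hE (Int.natCast_dvd.mpr h)
    have hpos : 0 < E.natAbs := Int.natAbs_pos.mpr hE0
    refine ⟨Nat.totient E.natAbs, Nat.totient_pos.mpr hpos, ?_⟩
    have h1 := Nat.ModEq.pow_totient hcop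
    have h2 : (E.natAbs : ℤ) ∣ 1 - (p : ℤ) ^ (Nat.totient E.natAbs) := by
      have := (Nat.modEq_iff_dvd.mp h1)
      push_cast at this
      exact_mod_cast this
    rw [Int.natCast_natAbs, abs_dvd] at h2
    obtain ⟨e, he⟩ := h2
    exact ⟨e, by rw [he]; ring⟩
  have hpe : ¬ (p : ℤ) ∣ e := by
    intro h
    have h1 : (p : ℤ) ∣ 1 - (p : ℤ) ^ J := by rw [he]; exact h.mul_right _
    have h2 : (p : ℤ) ∣ (p : ℤ) ^ J := dvd_pow_self _ hJ.ne'
    have h3 : (p : ℤ) ∣ 1 := by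
      have := dvd_add h1 h2
      simpa using this
    exact hpp.not_isUnit (isUnit_of_dvd_one h3)
  have heq : (1 : ℚ) - (p : ℚ) ^ J = e * E := by exact_mod_cast he
  have hcdq : (c : ℚ) * d = (p : ℚ) ^ v * E := by exact_mod_cast hcd
  refine ⟨v, e, hpe, fun k y hy => ?_⟩
  have hpv : (p : ℚ) ^ v ≠ 0 := pow_ne_zero _ hp0
  have hw : (a : ℚ) / c - x = 1 / (c * d) := by
    have : x = b / d := by rw [eq_div_iff hdq]; exact hxd
    rw [this]
    field_simp
    linear_combination hdetq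
  have hM : (e : ℚ) / (p : ℚ) ^ v = (1 - (p : ℚ) ^ J) / (c * d) := by
    rw [heq, hcdq]
    field_simp
  have hMA : InA p ((e : ℚ) / (p : ℚ) ^ v) := ⟨v, e, by field_simp⟩
  refine H.sheet hp hpN hdet hNc hc0 hd0 hy k (j := k) (j' := k + J) ?_ ?_ ?_ ?_
  · have : (p : ℚ) ^ k * (x + y) * d = (p : ℚ) ^ k * (b + y * d) := by rw [← hxd]; ring
    rw [this]
    exact (InA.zpow hp.ne_zero _).mul ((InA.int _).add (hy.mul (InA.int _)))
  · have : (p : ℚ) ^ k * (x + y + e / (p : ℚ) ^ v) * d =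
        (p : ℚ) ^ k * (b + y * d + e / (p : ℚ) ^ v * d) := by rw [← hxd]; ring
    rw [this]
    exact (InA.zpow hp.ne_zero _).mul (((InA.int _).add (hy.mul (InA.int _))).add
      (hMA.mul (InA.int _)))
  · have : (p : ℚ) ^ k * (a / c + y) - (p : ℚ) ^ k * (x + y) = (p : ℚ) ^ k * (a / c - x) := by
      ring
    rw [this, hw]
    ring
  · have : (p : ℚ) ^ k * (a / c + y) - (p : ℚ) ^ k * (x + y + e / (p : ℚ) ^ v) =
        (p : ℚ) ^ k * ((a / c - x) - e / (p : ℚ) ^ v) := by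
      ring
    rw [this, hw, hM, zpow_add₀ hp0, zpow_natCast]
    field_simp
    ring

/-- The core theorem, second coordinate from `0`. -/
theorem Core.second (H : Core p N ε α f1 f2) (hp : p.Prime) (hpN : Nat.Coprime p N)
    (hN0 : N ≠ 0) [CharP F p] (hα : α ≠ 0) (hε : ε 1 = 1) {x : ℚ} (hx : C0 N x) :
    f2 0 x = 0 := by
  have hp0 : (p : ℚ) ≠ 0 := by exact_mod_cast hp.ne_zero
  obtain ⟨v, e, he, hsh⟩ := H.exists_shift hp hpN hN0 hx
  have hMA : ∀ n : ℕ, InA p ((n : ℚ) * (e / (p : ℚ) ^ v)) := fun n =>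
    (InA.natCast n).mul ⟨v, e, by field_simp⟩
  have hself : ∀ z, f2 z z = 0 := fun z => by
    have := H.add2 z z z
    simpa using this
  have hiter : ∀ n : ℕ, f2 ((p : ℚ) ^ (-1 : ℤ) * x)
      ((p : ℚ) ^ (-1 : ℤ) * (x + n * (e / (p : ℚ) ^ v))) = 0 := by
    intro n
    induction n with
    | zero => simp [hself]
    | succ n ih =>
      rw [← H.add2 _ ((p : ℚ) ^ (-1 : ℤ) * (x + n * (e / (p : ℚ) ^ v))) _, ih, zero_add]
      have := (hsh (-1) _ (hMA n)).2
      push_cast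
      rw [add_mul, one_mul, ← add_assoc]
      exact this
  have hA0 : InA p (0 : ℚ) := by simpa using InA.int (p := p) 0
  -- every summand is the same
  have hterm : ∀ b : ℕ, f2 ((0 + b) / p) ((x + b) / p) = f2 0 (x / p) := by
    intro b
    -- choose `n'` with `n' * e ≡ b` modulo `p`
    obtain ⟨n', t, hn⟩ : ∃ (n' : ℕ) (t : ℤ), (b : ℤ) = n' * e + p * t := by
      have hcop : IsCoprime e (p : ℤ) :=
        ((Prime.coprime_iff_not_dvd (Nat.prime_iff_prime_int.mp hp)).mpr he).symm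
      obtain ⟨s, s', hs⟩ := hcop
      have hppos : (0 : ℤ) < p := by exact_mod_cast hp.pos
      obtain ⟨n', hn'⟩ : ∃ n' : ℕ, (n' : ℤ) = (b * s) % p :=
        ⟨((b * s) % (p : ℤ)).toNat, Int.toNat_of_nonneg (Int.emod_nonneg _ hppos.ne')⟩
      refine ⟨n', b * s' + (b * s / p) * e, ?_⟩
      have h2 := Int.emod_add_mul_ediv (b * s) (p : ℤ)
      rw [← hn'] at h2
      linear_combination (-(b : ℤ)) * hs - e * h2
    have hnq : (b : ℚ) = n' * e + p * t := by exact_mod_cast hn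
    obtain ⟨n, hnn⟩ : ∃ n : ℕ, n = p ^ v * n' := ⟨_, rfl⟩
    have hnM : (n : ℚ) * (e / (p : ℚ) ^ v) = n' * e := by
      rw [hnn]; push_cast; field_simp
    -- translate by `t`
    have htr := H.eq2 1 t 0 1 (by ring) (dvd_zero _) ((n' * e : ℚ) / p) ((x + n' * e) / p)
    have hc1 : C0 N ((n' * e : ℚ) / p) := by
      refine InA.c0 hpN ⟨1, n' * e, ?_⟩
      push_cast
      field_simp
    have hpC : C0 N ((p : ℚ)⁻¹) := InA.c0 hpN ⟨1, 1, by push_cast; field_simp⟩
    have hc2 : C0 N ((x + n' * e) / p) := by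
      rw [div_eq_mul_inv]
      refine (hx.add ?_).mul hpC
      have := (InA.int (p := p) ((n' : ℤ) * e)).c0 hpN
      push_cast at this
      exact this
    have htr := htr hc1 hc2 (by simp) (by simp)
    push_cast at htr
    simp only [one_mul, zero_mul, zero_add, div_one, hε] at htr
    have e1 : ((0 : ℚ) + b) / p = (n' * e : ℚ) / p + t := by
      rw [hnq]; field_simp; ring
    have e2 : (x + b) / p = (x + n' * e) / p + t := by
      rw [hnq]; field_simp; ring
    rw [e1, e2, htr]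
    rw [← H.add2 _ 0 _, ← H.add2 0 (x / p) _]
    have hz1 : f2 ((n' * e : ℚ) / p) 0 = 0 := by
      refine H.zero2 _ _ ⟨1, n' * e, ?_⟩ hA0
      push_cast
      field_simp
    have hz2 : f2 (x / p) ((x + n' * e) / p) = 0 := by
      have := hiter n
      rw [hnM] at this
      rw [zpow_neg_one, inv_mul_eq_div, inv_mul_eq_div] at this
      exact this
    rw [hz1, hz2]
    ring
  have h := H.hecke 0 x (hA0.c0 hpN) hx
  rw [Finset.sum_congr rfl (fun b _ => hterm b), Finset.sum_const, Finset.card_range,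
    nsmul_eq_mul, CharP.cast_eq_zero, zero_mul] at h
  exact (mul_eq_zero.mp h).resolve_left hα

/-- **The core theorem.** -/
theorem Core.vanish (H : Core p N ε α f1 f2) (hp : p.Prime) (hpN : Nat.Coprime p N)
    (hN : 1 < N) [CharP F p] (hα : α ≠ 0) (hε : ε 1 = 1) {x y : ℚ} (hx : C0 N x) (hy : C0 N y) :
    f1 x y = 0 ∧ f2 x y = 0 := by
  have hN0 : N ≠ 0 := by omega
  have h2 : ∀ {x y : ℚ}, C0 N x → C0 N y → f2 x y = 0 := by
    intro x y hx hy
    have h1 := H.add2 0 x y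
    rw [H.second hp hpN hN0 hα hε hx, H.second hp hpN hN0 hα hε hy, zero_add] at h1
    exact h1
  -- the lower triangular matrix
  have hlow : ∀ {x : ℚ}, C0 N x → (N : ℚ) * x + 1 ≠ 0 ∧ C0 N (x / (N * x + 1)) := by
    intro x hx
    have hc := hx.den
    have hdq : (x.den : ℚ) ≠ 0 := by exact_mod_cast x.den_ne_zero
    have hxd : x * x.den = x.num := Rat.mul_den_eq_num x
    have hcop : IsCoprime ((N : ℤ) * x.num + x.den) (N : ℤ) := by
      rw [add_comm]
      exact hc.add_mul_left_left x.num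
    have hne : (N : ℤ) * x.num + x.den ≠ 0 := by
      intro h
      rw [h] at hcop
      have := isCoprime_zero_left.mp hcop
      rw [Int.isUnit_iff] at this
      omega
    have hneq : (N : ℚ) * x.num + x.den ≠ 0 := by exact_mod_cast hne
    have hmul : ((N : ℚ) * x + 1) * x.den = N * x.num + x.den := by rw [← hxd]; ring
    have hne' : (N : ℚ) * x + 1 ≠ 0 := by
      intro h
      rw [h, zero_mul] at hmul
      exact hneq hmul.symm
    refine ⟨hne', ⟨(N : ℤ) * x.num + x.den, hcop, x.num, ?_⟩⟩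
    push_cast
    rw [← hmul, ← hxd, div_mul_eq_mul_div, div_eq_iff hne']
    ring
  obtain ⟨hx1, hx2⟩ := hlow hx
  obtain ⟨hy1, hy2⟩ := hlow hy
  have h3 := H.eq2 1 0 N 1 (by ring) (dvd_refl _) x y hx hy (by push_cast; exact hx1)
    (by push_cast; exact hy1)
  push_cast at h3
  simp only [one_mul, add_zero, hε] at h3
  rw [h2 hx2 hy2, h2 hx hy, add_zero] at h3
  have hNF : (N : F) ≠ 0 := by
    rw [Ne, CharP.cast_eq_zero_iff F p]
    exact (hp.coprime_iff_not_dvd.mp hpN)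
  exact ⟨(mul_eq_zero.mp h3.symm).resolve_left hNF, h2 hx hy⟩

end Main

end Pool.Agent.Lib_helper47.Mu
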