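import Pool.Agent.Lib_helper47.Mu.Core

/-!
# The core of the nonvanishing theorem, coefficients in an arbitrary module

The same proof as in `Core.lean`, for additive functions with values in any module, equivariant
for arbitrary maps which preserve zero; the conclusion is the vanishing of the lowest coordinate.
-/

namespace Pool.Agent.Lib_helper47.Mu

/-- The hypotheses of the core theorem for a `V`-valued symbol `f`: `ρ a b c d` is the action of
the matrix `(a b; c d)`, `l` is the lowest coordinate. -/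
structure CoreV (p N : ℕ) {F V : Type*} [Field F] [AddCommGroup V] (ρ : ℤ → ℤ → ℤ → ℤ → V → V)
    (l : V → F) (α : F) (f : ℚ → ℚ → V) : Prop where
  add : ∀ x y z, f x y + f y z = f x z
  eqv : ∀ a b c d : ℤ, a * d - b * c = 1 → (N : ℤ) ∣ c → ∀ r s : ℚ, C0 N r → C0 N s →
    c * r + d ≠ 0 → c * s + d ≠ 0 →
    f ((a * r + b) / (c * r + d)) ((a * s + b) / (c * s + d)) = ρ a b c d (f r s)
  rho_zero : ∀ a b c d : ℤ, a * d - b * c = 1 → (N : ℤ) ∣ c → ρ a b c d 0 = 0
  l_add : ∀ v w, l (v + w) = l v + l w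
  l_trans : ∀ (t : ℤ) (v : V), l (ρ 1 t 0 1 v) = l v
  hecke : ∀ x y, C0 N x → C0 N y →
    α * l (f x y) = ∑ b ∈ Finset.range p, l (f ((x + b) / p) ((y + b) / p))
  zero : ∀ r s, InA p r → InA p s → f r s = 0

section Main

variable {p N : ℕ} {F V : Type*} [Field F] [AddCommGroup V] {ρ : ℤ → ℤ → ℤ → ℤ → V → V}
  {l : V → F} {α : F} {f : ℚ → ℚ → V}

/-- Two points on a common sheet. -/
theorem CoreV.sheet (H : CoreV p N ρ l α f) (hp : p.Prime) (hpN : Nat.Coprime p N)
    {a b c d : ℤ} (hdet : a * d - b * c = 1) (hN : (N : ℤ) ∣ c) (hc : c ≠ 0) (hd : d ≠ 0)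
    {y : ℚ} (hy : InA p y) (k : ℤ) {X X' : ℚ} (hX : InA p (X * d)) (hX' : InA p (X' * d))
    {j j' : ℤ} (hj : (p : ℚ) ^ k * (a / c + y) - X = (p : ℚ) ^ j / (c * d))
    (hj' : (p : ℚ) ^ k * (a / c + y) - X' = (p : ℚ) ^ j' / (c * d)) :
    f X X' = 0 := by
  have hp0 : (p : ℚ) ≠ 0 := by exact_mod_cast hp.ne_zero
  have hcq : (c : ℚ) ≠ 0 := by exact_mod_cast hc
  have hdq : (d : ℚ) ≠ 0 := by exact_mod_cast hd
  set W : ℚ := (p : ℚ) ^ k * (a / c + y) with hW
  have hVpos : (0 : ℤ) < W.den := by exact_mod_cast W.den_pos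
  have hV0 : (W.den : ℚ) ≠ 0 := by exact_mod_cast W.den_ne_zero
  have hWU : W * W.den = W.num := Rat.mul_den_eq_num W
  obtain ⟨d', b', hb⟩ : ∃ d' b' : ℤ, W.num * d' - b' * W.den = 1 := by
    have h1 : IsCoprime W.num (W.den : ℤ) := by
      rw [Int.isCoprime_iff_nat_coprime]
      simpa using W.reduced
    obtain ⟨s, t, h⟩ := h1
    exact ⟨s, -t, by linarith⟩
  have hbq : (W.num : ℚ) * d' - b' * W.den = 1 := by exact_mod_cast hb
  -- `N` divides the denominator of `W`
  have hNV : (N : ℤ) ∣ (W.den : ℤ) := by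
    have hA : InA p ((a : ℚ) * W.den / c) := by
      have : (a : ℚ) * W.den / c = (p : ℚ) ^ (-k) * W.num - y * W.den := by
        have h1 : (p : ℚ) ^ (-k) * W = a / c + y := by
          rw [hW, ← mul_assoc, ← zpow_add₀ hp0]; simp
        have h2 : (p : ℚ) ^ (-k) * W.num = (a / c + y) * W.den := by
          rw [← hWU, ← mul_assoc, h1]
        rw [h2]
        field_simp
        ring
      rw [this]
      exact ((InA.zpow hp.ne_zero _).mul (InA.int _)).sub (hy.mul (InA.natCast _))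
    obtain ⟨n, z, hz⟩ := hA
    have h3 : a * W.den * p ^ n = z * c := by
      have : ((a * W.den * p ^ n : ℤ) : ℚ) = ((z * c : ℤ) : ℚ) := by
        push_cast
        rw [← hz]
        field_simp
      exact_mod_cast this
    have h4 : (N : ℤ) ∣ a * W.den * p ^ n := by
      rw [h3]; exact hN.mul_left z
    have h5 : IsCoprime (N : ℤ) (p : ℤ) := (Nat.isCoprime_iff_coprime.mpr hpN).symm
    have h6 : IsCoprime (N : ℤ) a := by
      obtain ⟨t, ht⟩ := hN
      refine ⟨-b * t, d, ?_⟩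
      rw [ht] at hdet
      linarith
    have h7 : (N : ℤ) ∣ a * W.den := (h5.pow_right).dvd_of_dvd_mul_right h4
    exact h6.dvd_of_dvd_mul_left h7
  -- `c / W.den` is in `A`
  have hcV : InA p ((c : ℚ) / W.den) := by
    have hWc : W * c = W.num * c / W.den := by
      rw [eq_div_iff hV0, ← hWU]; ring
    have h1 : (c : ℚ) / W.den = d' * (W * c) - b' * c := by
      rw [hWc]
      field_simp
      linear_combination -hbq
    have h2 : W * c = (p : ℚ) ^ k * (a + y * c) := by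
      rw [hW]; field_simp
    rw [h1, h2]
    exact ((InA.int _).mul ((InA.zpow hp.ne_zero _).mul ((InA.int _).add
      (hy.mul (InA.int _))))).sub ((InA.int _).mul (InA.int _))
  -- the preimages
  have key : ∀ {X : ℚ} {j : ℤ}, InA p (X * d) → W - X = (p : ℚ) ^ j / (c * d) →
      ∃ r : ℚ, InA p r ∧ (W.den : ℚ) * r + d' ≠ 0 ∧
        ((W.num : ℚ) * r + b') / ((W.den : ℚ) * r + d') = X := by
    intro X j hX hj
    have hne : (W.num : ℚ) - W.den * X ≠ 0 := by
      rw [← hWU]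
      have : W * W.den - W.den * X = W.den * (W - X) := by ring
      rw [this, hj]
      exact mul_ne_zero hV0 (div_ne_zero (zpow_ne_zero _ hp0) (mul_ne_zero hcq hdq))
    have hval : (W.num : ℚ) - W.den * X = W.den * ((p : ℚ) ^ j / (c * d)) := by
      rw [← hWU, ← hj]; ring
    obtain ⟨E, hE⟩ : ∃ E : ℚ, E = (W.num : ℚ) - W.den * X := ⟨_, rfl⟩
    rw [← hE] at hne hval
    have h1 : (W.den : ℚ) * ((d' * X - b') / E) + d' = 1 / E := by
      have : (W.den : ℚ) * ((d' * X - b') / E) + d' = (W.den * (d' * X - b') + d' * E) / E := by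
        field_simp
      rw [this]
      congr 1
      rw [hE]
      linear_combination hbq
    have h2 : (W.num : ℚ) * ((d' * X - b') / E) + b' = X / E := by
      have : (W.num : ℚ) * ((d' * X - b') / E) + b' = (W.num * (d' * X - b') + b' * E) / E := by
        field_simp
      rw [this]
      congr 1
      rw [hE]
      linear_combination X * hbq
    refine ⟨(d' * X - b') / E, ?_, ?_, ?_⟩
    · have : (d' * X - b') / E =
          (p : ℚ) ^ (-j) * (d' * (X * d) - b' * d) * (c / W.den) := by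
        rw [hval, zpow_neg]
        have := zpow_ne_zero j hp0
        field_simp
      rw [this]
      exact ((InA.zpow hp.ne_zero _).mul (((InA.int _).mul hX).sub
        ((InA.int _).mul (InA.int _)))).mul hcV
    · rw [h1]
      exact one_div_ne_zero hne
    · rw [h1, h2]
      field_simp
  obtain ⟨r, hr, hr1, hr2⟩ := key hX hj
  obtain ⟨r', hr', hr1', hr2'⟩ := key hX' hj'
  have e1 := H.eqv W.num b' W.den d' hb hNV r r' (hr.c0 hpN) (hr'.c0 hpN)
    (by push_cast; exact hr1) (by push_cast; exact hr1')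
  push_cast at e1
  rw [hr2, hr2', H.zero r r' hr hr', H.rho_zero _ _ _ _ hb hNV] at e1
  exact e1

/-- For a point `x` there is a nonzero translation `M ∈ ℤ[1/p]` under which `x` and all its
`ℤ[1/p]`-translates and multiples by powers of `p` do not move along the sheets. -/
theorem CoreV.exists_shift (H : CoreV p N ρ l α f) (hp : p.Prime) (hpN : Nat.Coprime p N)
    (hN0 : N ≠ 0) {x : ℚ} (hx : C0 N x) :
    ∃ (v : ℕ) (e : ℤ), ¬ (p : ℤ) ∣ e ∧ ∀ (k : ℤ) (y : ℚ), InA p y →
      f ((p : ℚ) ^ k * (x + y)) ((p : ℚ) ^ k * (x + y + e / (p : ℚ) ^ v)) = 0 := by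
  have hp0 : (p : ℚ) ≠ 0 := by exact_mod_cast hp.ne_zero
  have hpp : Prime (p : ℤ) := Nat.prime_iff_prime_int.mp hp
  obtain ⟨d, hd⟩ : ∃ d : ℤ, d = x.den := ⟨_, rfl⟩
  obtain ⟨b, hb⟩ : ∃ b : ℤ, b = x.num := ⟨_, rfl⟩
  have hd0 : d ≠ 0 := by rw [hd]; exact_mod_cast x.den_ne_zero
  have hdq : (d : ℚ) ≠ 0 := by exact_mod_cast hd0
  have hbd : IsCoprime d b := by
    rw [hd, hb, Int.isCoprime_iff_nat_coprime]
    simpa using x.reduced.symm
  have hxd : x * d = b := by rw [hd, hb]; push_cast; exact Rat.mul_den_eq_num x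
  have hdN : IsCoprime d (N : ℤ) := by rw [hd]; exact hx.den
  obtain ⟨a0, c0, h0⟩ : IsCoprime d (b * N) := hbd.mul_right hdN
  obtain ⟨t, ht⟩ : ∃ t : ℤ, -c0 + d * t ≠ 0 := by
    by_cases h : c0 = 0
    · exact ⟨1, by rw [h]; simpa using hd0⟩
    · exact ⟨0, by simpa using h⟩
  obtain ⟨c, hc⟩ : ∃ c : ℤ, c = N * (-c0 + d * t) := ⟨_, rfl⟩
  obtain ⟨a, ha⟩ : ∃ a : ℤ, a = a0 + b * N * t := ⟨_, rfl⟩
  have hdet : a * d - b * c = 1 := by rw [ha, hc]; linarith
  have hdetq : (a : ℚ) * d - b * c = 1 := by exact_mod_cast hdet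
  have hNc : (N : ℤ) ∣ c := ⟨_, hc⟩
  have hc0 : c ≠ 0 := by
    rw [hc]; exact mul_ne_zero (by exact_mod_cast hN0) ht
  have hcq : (c : ℚ) ≠ 0 := by exact_mod_cast hc0
  -- the prime-to-`p` part
  obtain ⟨v, E, hE, hcd⟩ : ∃ (v : ℕ) (E : ℤ), ¬ (p : ℤ) ∣ E ∧ c * d = (p : ℤ) ^ v * E := by
    have hfin : FiniteMultiplicity (p : ℤ) (c * d) :=
      Int.finiteMultiplicity_iff.mpr ⟨by simpa using hp.ne_one, mul_ne_zero hc0 hd0⟩
    obtain ⟨E, h1, h2⟩ := hfin.exists_eq_pow_mul_and_not_dvd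
    exact ⟨_, E, h2, h1⟩
  have hE0 : E ≠ 0 := by rintro rfl; simp at hE
  have hEq : (E : ℚ) ≠ 0 := by exact_mod_cast hE0
  obtain ⟨J, hJ, e, he⟩ : ∃ J : ℕ, 0 < J ∧ ∃ e : ℤ, 1 - (p : ℤ) ^ J = e * E := by
    have hcop : Nat.Coprime p E.natAbs := by
      rw [hp.coprime_iff_not_dvd]
      intro h
      exact hE (Int.natCast_dvd.mpr h)
    have hpos : 0 < E.natAbs := Int.natAbs_pos.mpr hE0
    refine ⟨Nat.totient E.natAbs, Nat.totient_pos.mpr hpos, ?_⟩
    have h1 := Nat.ModEq.pow_totient hcop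
    have h2 : (E.natAbs : ℤ) ∣ 1 - (p : ℤ) ^ (Nat.totient E.natAbs) := by
      have := (Nat.modEq_iff_dvd.mp h1)
      push_cast at this
      exact_mod_cast this
    rw [Int.natCast_natAbs, abs_dvd] at h2
    obtain ⟨e, he⟩ := h2
    exact ⟨e, by rw [he]; ring⟩
  have hpe : ¬ (p : ℤ) ∣ e := by
    intro h
    have h1 : (p : ℤ) ∣ 1 - (p : ℤ) ^ J := by rw [he]; exact h.mul_right _
    have h2 : (p : ℤ) ∣ (p : ℤ) ^ J := dvd_pow_self _ hJ.ne'
    have h3 : (p : ℤ) ∣ 1 := by
      have := dvd_add h1 h2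
      simpa using this
    exact hpp.not_isUnit (isUnit_of_dvd_one h3)
  have heq : (1 : ℚ) - (p : ℚ) ^ J = e * E := by exact_mod_cast he
  have hcdq : (c : ℚ) * d = (p : ℚ) ^ v * E := by exact_mod_cast hcd
  refine ⟨v, e, hpe, fun k y hy => ?_⟩
  have hpv : (p : ℚ) ^ v ≠ 0 := pow_ne_zero _ hp0
  have hw : (a : ℚ) / c - x = 1 / (c * d) := by
    have : x = b / d := by rw [eq_div_iff hdq]; exact hxd
    rw [this]
    field_simp
    linear_combination hdetq
  have hM : (e : ℚ) / (p : ℚ) ^ v = (1 - (p : ℚ) ^ J) / (c * d) := by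
    rw [heq, hcdq]
    field_simp
  have hMA : InA p ((e : ℚ) / (p : ℚ) ^ v) := ⟨v, e, by field_simp⟩
  refine H.sheet hp hpN hdet hNc hc0 hd0 hy k (j := k) (j' := k + J) ?_ ?_ ?_ ?_
  · have : (p : ℚ) ^ k * (x + y) * d = (p : ℚ) ^ k * (b + y * d) := by rw [← hxd]; ring
    rw [this]
    exact (InA.zpow hp.ne_zero _).mul ((InA.int _).add (hy.mul (InA.int _)))
  · have : (p : ℚ) ^ k * (x + y + e / (p : ℚ) ^ v) * d =
        (p : ℚ) ^ k * (b + y * d + e / (p : ℚ) ^ v * d) := by rw [← hxd]; ring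
    rw [this]
    exact (InA.zpow hp.ne_zero _).mul (((InA.int _).add (hy.mul (InA.int _))).add
      (hMA.mul (InA.int _)))
  · have : (p : ℚ) ^ k * (a / c + y) - (p : ℚ) ^ k * (x + y) = (p : ℚ) ^ k * (a / c - x) := by
      ring
    rw [this, hw]
    ring
  · have : (p : ℚ) ^ k * (a / c + y) - (p : ℚ) ^ k * (x + y + e / (p : ℚ) ^ v) =
        (p : ℚ) ^ k * ((a / c - x) - e / (p : ℚ) ^ v) := by
      ring
    rw [this, hw, hM, zpow_add₀ hp0, zpow_natCast]
    field_simp
    ring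

/-- The core theorem, second coordinate from `0`. -/
theorem CoreV.second (H : CoreV p N ρ l α f) (hp : p.Prime) (hpN : Nat.Coprime p N)
    (hN0 : N ≠ 0) [CharP F p] (hα : α ≠ 0) {x : ℚ} (hx : C0 N x) :
    l (f 0 x) = 0 := by
  have hp0 : (p : ℚ) ≠ 0 := by exact_mod_cast hp.ne_zero
  obtain ⟨v, e, he, hsh⟩ := H.exists_shift hp hpN hN0 hx
  have hMA : ∀ n : ℕ, InA p ((n : ℚ) * (e / (p : ℚ) ^ v)) := fun n =>
    (InA.natCast n).mul ⟨v, e, by field_simp⟩
  have hself : ∀ z, f z z = 0 := fun z => by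
    have := H.add z z z
    simpa using this
  have hl0 : l 0 = 0 := by
    have := H.l_add 0 0
    simpa using this
  have hiter : ∀ n : ℕ, f ((p : ℚ) ^ (-1 : ℤ) * x)
      ((p : ℚ) ^ (-1 : ℤ) * (x + n * (e / (p : ℚ) ^ v))) = 0 := by
    intro n
    induction n with
    | zero => simp [hself]
    | succ n ih =>
      rw [← H.add _ ((p : ℚ) ^ (-1 : ℤ) * (x + n * (e / (p : ℚ) ^ v))) _, ih, zero_add]
      have := hsh (-1) _ (hMA n)
      push_cast
      rw [add_mul, one_mul, ← add_assoc]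
      exact this
  have hA0 : InA p (0 : ℚ) := by simpa using InA.int (p := p) 0
  -- every summand is the same
  have hterm : ∀ b : ℕ, l (f ((0 + b) / p) ((x + b) / p)) = l (f 0 (x / p)) := by
    intro b
    -- choose `n'` with `n' * e ≡ b` modulo `p`
    obtain ⟨n', t, hn⟩ : ∃ (n' : ℕ) (t : ℤ), (b : ℤ) = n' * e + p * t := by
      have hcop : IsCoprime e (p : ℤ) :=
        ((Prime.coprime_iff_not_dvd (Nat.prime_iff_prime_int.mp hp)).mpr he).symm
      obtain ⟨s, s', hs⟩ := hcop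
      have hppos : (0 : ℤ) < p := by exact_mod_cast hp.pos
      obtain ⟨n', hn'⟩ : ∃ n' : ℕ, (n' : ℤ) = (b * s) % p :=
        ⟨((b * s) % (p : ℤ)).toNat, Int.toNat_of_nonneg (Int.emod_nonneg _ hppos.ne')⟩
      refine ⟨n', b * s' + (b * s / p) * e, ?_⟩
      have h2 := Int.emod_add_mul_ediv (b * s) (p : ℤ)
      rw [← hn'] at h2
      linear_combination (-(b : ℤ)) * hs - e * h2
    have hnq : (b : ℚ) = n' * e + p * t := by exact_mod_cast hn
    obtain ⟨n, hnn⟩ : ∃ n : ℕ, n = p ^ v * n' := ⟨_, rfl⟩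
    have hnM : (n : ℚ) * (e / (p : ℚ) ^ v) = n' * e := by
      rw [hnn]; push_cast; field_simp
    -- translate by `t`
    have htr := H.eqv 1 t 0 1 (by ring) (dvd_zero _) ((n' * e : ℚ) / p) ((x + n' * e) / p)
    have hc1 : C0 N ((n' * e : ℚ) / p) := by
      refine InA.c0 hpN ⟨1, n' * e, ?_⟩
      push_cast
      field_simp
    have hpC : C0 N ((p : ℚ)⁻¹) := InA.c0 hpN ⟨1, 1, by push_cast; field_simp⟩
    have hc2 : C0 N ((x + n' * e) / p) := by
      rw [div_eq_mul_inv]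
      refine (hx.add ?_).mul hpC
      have := (InA.int (p := p) ((n' : ℤ) * e)).c0 hpN
      push_cast at this
      exact this
    have htr := htr hc1 hc2 (by simp) (by simp)
    push_cast at htr
    simp only [one_mul, zero_mul, zero_add, div_one] at htr
    have e1 : ((0 : ℚ) + b) / p = (n' * e : ℚ) / p + t := by
      rw [hnq]; field_simp; ring
    have e2 : (x + b) / p = (x + n' * e) / p + t := by
      rw [hnq]; field_simp; ring
    rw [e1, e2, htr, H.l_trans]
    rw [← H.add _ 0 _, ← H.add 0 (x / p) _]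
    have hz1 : f ((n' * e : ℚ) / p) 0 = 0 := by
      refine H.zero _ _ ⟨1, n' * e, ?_⟩ hA0
      push_cast
      field_simp
    have hz2 : f (x / p) ((x + n' * e) / p) = 0 := by
      have := hiter n
      rw [hnM] at this
      rw [zpow_neg_one, inv_mul_eq_div, inv_mul_eq_div] at this
      exact this
    rw [hz1, hz2, zero_add, add_zero]
  have h := H.hecke 0 x (hA0.c0 hpN) hx
  rw [Finset.sum_congr rfl (fun b _ => hterm b), Finset.sum_const, Finset.card_range,
    nsmul_eq_mul, CharP.cast_eq_zero, zero_mul] at h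
  exact (mul_eq_zero.mp h).resolve_left hα

/-- **The core theorem**: the lowest coordinate vanishes. -/
theorem CoreV.vanish (H : CoreV p N ρ l α f) (hp : p.Prime) (hpN : Nat.Coprime p N)
    (hN0 : N ≠ 0) [CharP F p] (hα : α ≠ 0) {x y : ℚ} (hx : C0 N x) (hy : C0 N y) :
    l (f x y) = 0 := by
  have h1 := congrArg l (H.add 0 x y)
  rw [H.l_add, H.second hp hpN hN0 hα hx, H.second hp hpN hN0 hα hy, zero_add] at h1
  exact h1

/-- The image of a point with denominator prime to `N` under a matrix of `Γ₀(N)`. -/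
theorem C0.image {x : ℚ} (hx : C0 N x) (hN : 1 < N) {a b c d : ℤ} (hdet : a * d - b * c = 1)
    (hNc : (N : ℤ) ∣ c) :
    (c : ℚ) * x + d ≠ 0 ∧ C0 N ((a * x + b) / (c * x + d)) := by
  have hc := hx.den
  have hdq : (x.den : ℚ) ≠ 0 := by exact_mod_cast x.den_ne_zero
  have hxd : x * x.den = x.num := Rat.mul_den_eq_num x
  have hdN : IsCoprime d (N : ℤ) := by
    obtain ⟨t, ht⟩ := hNc
    refine ⟨a, -b * t, ?_⟩
    rw [ht] at hdet
    linarith
  have hcop : IsCoprime (c * x.num + d * x.den) (N : ℤ) := by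
    obtain ⟨t, ht⟩ := hNc
    have h1 : IsCoprime (d * (x.den : ℤ)) (N : ℤ) := hdN.mul_left hc
    have := h1.add_mul_left_left (t * x.num)
    rw [ht, add_comm, mul_assoc]
    exact this
  have hne : c * x.num + d * (x.den : ℤ) ≠ 0 := by
    intro h
    rw [h] at hcop
    have := isCoprime_zero_left.mp hcop
    rw [Int.isUnit_iff] at this
    omega
  have hneq : (c : ℚ) * x.num + d * x.den ≠ 0 := by exact_mod_cast hne
  have hmul : ((c : ℚ) * x + d) * x.den = c * x.num + d * x.den := by rw [← hxd]; ring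
  have hne' : (c : ℚ) * x + d ≠ 0 := by
    intro h
    rw [h, zero_mul] at hmul
    exact hneq hmul.symm
  refine ⟨hne', ⟨c * x.num + d * x.den, hcop, a * x.num + b * x.den, ?_⟩⟩
  push_cast
  rw [← hmul, ← hxd, div_mul_eq_mul_div, div_eq_iff hne']
  ring

end Main

end Pool.Agent.Lib_helper47.Mu
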